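import Pool.Agent.helper17.EXC.Spec

set_option autoImplicit false

open Finset

namespace Pool.Agent.EXC

theorem FIX (hEXF : EXF_stmt) (hUNQ : UNQ_stmt) (hNRM : NRM_stmt) (hNBR : NBR_stmt) : FIX_stmt := by
  intro n C _ F _ j0 θ δ hE
  have hβ := (hNBR n C j0 θ δ hE).1
  obtain ⟨-, -, hEx, -⟩ := hEXF n C F hβ
  have hU := hUNQ n C F j0 θ δ hE
  have hN := hNRM n C F hβ
  constructor
  · intro x hx
    ext1 g
    have key : (g : Lm C F ≃ₗ[F] Lm C F)⁻¹ * ((x g : EG C F) : Lm C F ≃ₗ[F] Lm C F) = 1 := by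
      apply hN _ ((GE C F).mul_mem ((GE C F).inv_mem g.2) (x g).2)
      intro a ha
      obtain ⟨-, -, hga, -, hX1, -, -, hconj, -⟩ := hEx a ha
      obtain ⟨k, hk, hk1⟩ := hX1 1
      have h0 := (hx a ha (x.symm ⟨k, hk⟩)).2
      rw [MulEquiv.apply_symm_apply] at h0
      obtain ⟨s, hs⟩ := h0 ⟨1, hk1⟩
      have h1 := hconj g.1 g.2 s _ hs
      obtain ⟨t, ht⟩ := (hx (g.1 a) (hga g.1 g.2) (g * x.symm ⟨k, hk⟩ * g⁻¹)).1 ⟨s, by simpa using h1⟩
      rw [map_mul, map_mul, map_inv, MulEquiv.apply_symm_apply] at ht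
      have h2 := hconj (x g).1 (x g).2 1 _ hk1
      have h3 := hU ((x g).1 a) (g.1 a) t _ (hga _ (x g).2) (hga _ g.2) h2 (by simpa using ht)
      refine ⟨t, ?_⟩
      change (g : Lm C F ≃ₗ[F] Lm C F)⁻¹ ((x g).1 a) = t • a
      rw [h3, map_smul]
      congr 1
      exact LinearEquiv.symm_apply_apply g.1 a
    have h4 : ((x g : EG C F) : Lm C F ≃ₗ[F] Lm C F) = g := by
      rw [inv_mul_eq_one] at key
      exact key.symm
    exact Subtype.ext h4
  · intro z hz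
    have key : (z : Lm C F ≃ₗ[F] Lm C F) = 1 := by
      apply hN _ z.2
      intro a ha
      obtain ⟨-, -, hga, -, hX1, -, -, hconj, -⟩ := hEx a ha
      obtain ⟨k, hk, hk1⟩ := hX1 1
      have h2 := hconj z.1 z.2 1 _ hk1
      have h3 : z.1 * k * z.1⁻¹ = k := by
        have := congrArg Subtype.val (hz ⟨k, hk⟩)
        simp only [Subgroup.coe_mul] at this
        rw [this, mul_assoc, mul_inv_cancel, mul_one]
      rw [h3] at h2
      exact ⟨1, hU (z.1 a) a 1 k (hga _ z.2) ha h2 hk1⟩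
    exact Subtype.ext key

end Pool.Agent.EXC
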