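import Pool.Agent.helper17.EXC.Spec

set_option autoImplicit false

open Finset

namespace Pool.Agent.EXC

theorem FL3_fac (q : ℕ) (hq : 1 ≤ q) : q ^ 3 - 1 = (q - 1) * (1 + q + q ^ 2) := by
  obtain ⟨s, rfl⟩ : ∃ s, q = s + 1 := ⟨q - 1, by omega⟩
  have : (s + 1) ^ 3 = s * (1 + (s + 1) + (s + 1) ^ 2) + 1 := by ring
  rw [this]; simp

theorem FL3 (hFL0 : FL0_stmt) : FL3_stmt := by
  intro F K _ _ _ _ _ r hr hrq h3 h1 ζ hζ
  obtain ⟨-, hfix, hadd, -⟩ := hFL0 F K r hr hrq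
  set q : ℕ := Nat.card F with hq
  have hq1 : 1 ≤ q := Nat.card_pos
  -- orders
  have ord : ∀ m : ℕ, ζ ^ m = 1 ↔ r ∣ m := fun m => hζ.pow_eq_one_iff_dvd m
  have hζ0 : ζ ≠ 0 := hζ.ne_zero hr.ne_zero
  have hpow : ∀ a b : ℕ, a ≤ b → ζ ^ a = ζ ^ b → r ∣ b - a := by
    intro a b hab h
    rw [← ord]
    have : ζ ^ a * ζ ^ (b - a) = ζ ^ a * 1 := by rw [← pow_add, Nat.add_sub_cancel' hab, mul_one, h]
    exact mul_left_cancel₀ (pow_ne_zero a hζ0) this
  have e3 : ζ ^ (q ^ 3) = ζ := by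
    obtain ⟨k, hk⟩ := h3
    have : q ^ 3 = r * k + 1 := by have := Nat.one_le_pow 3 q hq1; omega
    rw [this, pow_add, pow_mul, hζ.pow_eq_one, one_pow, one_mul, pow_one]
  -- divisibility
  have hfac : q ^ 3 - 1 = (q - 1) * (1 + q + q ^ 2) := FL3_fac q hq1
  have hs : r ∣ 1 + q + q ^ 2 := by
    rw [hfac] at h3
    exact (hr.dvd_mul.1 h3).resolve_left h1
  have hprod : ζ * ζ ^ q * ζ ^ (q ^ 2) = 1 := by
    have := (ord (1 + q + q ^ 2)).2 hs
    rw [pow_add, pow_add, pow_one] at this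
    exact this
  -- distinct
  have d01 : ζ ≠ ζ ^ q := by
    intro h
    exact h1 (hpow 1 q hq1 (by rw [pow_one]; exact h))
  have d12 : ζ ^ q ≠ ζ ^ (q ^ 2) := by
    intro h
    have h2 := hpow q (q ^ 2) (by nlinarith) h
    have : q ^ 2 - q = q * (q - 1) := by rw [Nat.mul_sub, mul_one, sq]
    rw [this, hr.dvd_mul] at h2
    exact h2.elim hrq h1
  have d02 : ζ ≠ ζ ^ (q ^ 2) := by
    intro h
    have h2 := hpow 1 (q ^ 2) (Nat.one_le_pow 2 q hq1) (by rw [pow_one]; exact h)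
    apply h1
    have h4 : r ∣ q * (q ^ 2 - 1) := h2.mul_left q
    have h5 : q ^ 3 - 1 = q * (q ^ 2 - 1) + (q - 1) := by
      rw [Nat.mul_sub, mul_one, ← pow_succ']
      have : q ≤ q ^ (2 + 1) := Nat.le_self_pow (by norm_num) q
      have h6 : 2 + 1 = 3 := rfl
      rw [h6] at this ⊢
      omega
    rw [h5] at h3
    exact (Nat.dvd_add_right h4).1 h3
  have f0 : ζ ^ q = ζ ^ q := rfl
  have f1 : (ζ ^ q) ^ q = ζ ^ (q ^ 2) := by rw [← pow_mul, sq]
  have f2 : (ζ ^ (q ^ 2)) ^ q = ζ := by rw [← pow_mul, ← pow_succ]; exact e3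
  have hcq : ∀ c : F, (algebraMap F K c) ^ q = algebraMap F K c := by
    intro c
    have := Fintype.ofFinite F
    rw [← map_pow, hq, Nat.card_eq_fintype_card, FiniteField.pow_card]
  constructor
  · obtain ⟨α, hα⟩ := hfix (ζ + ζ ^ q + ζ ^ (q ^ 2)) (by rw [hadd, hadd, f1, f2]; ring)
    obtain ⟨β, hβ⟩ := hfix (ζ * ζ ^ q + ζ * ζ ^ (q ^ 2) + ζ ^ q * ζ ^ (q ^ 2))
      (by rw [hadd, hadd, mul_pow, mul_pow, mul_pow, f1, f2]; ring)
    refine ⟨α, β, ?_⟩
    rw [← hα, ← hβ, ← hprod]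
    ring
  · intro c0 c1 c2 h
    have g1 : algebraMap F K c0 + algebraMap F K c1 * ζ ^ q + algebraMap F K c2 * (ζ ^ q) ^ 2 = 0 := by
      have := congrArg (fun x => x ^ q) h
      simp only [hadd, mul_pow, hcq] at this
      rw [zero_pow (by omega), ← pow_mul, mul_comm 2 q, pow_mul] at this
      exact this
    have g2 : algebraMap F K c0 + algebraMap F K c1 * ζ ^ (q ^ 2) + algebraMap F K c2 * (ζ ^ (q ^ 2)) ^ 2 = 0 := by
      have := congrArg (fun x => x ^ q) g1
      simp only [hadd, mul_pow, hcq] at this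
      rw [zero_pow (by omega), f1, ← pow_mul, mul_comm 2 q, pow_mul, f1] at this
      exact this
    generalize ζ ^ q = y at *
    generalize ζ ^ (q ^ 2) = z at *
    have k1 : algebraMap F K c1 + algebraMap F K c2 * (ζ + y) = 0 := by
      have : (ζ - y) * (algebraMap F K c1 + algebraMap F K c2 * (ζ + y)) = 0 := by linear_combination h - g1
      exact (mul_eq_zero.1 this).resolve_left (sub_ne_zero.2 d01)
    have k2 : algebraMap F K c1 + algebraMap F K c2 * (ζ + z) = 0 := by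
      have : (ζ - z) * (algebraMap F K c1 + algebraMap F K c2 * (ζ + z)) = 0 := by linear_combination h - g2
      exact (mul_eq_zero.1 this).resolve_left (sub_ne_zero.2 d02)
    have k3 : algebraMap F K c2 = 0 := by
      have : (y - z) * algebraMap F K c2 = 0 := by linear_combination k1 - k2
      exact (mul_eq_zero.1 this).resolve_left (sub_ne_zero.2 d12)
    have k4 : algebraMap F K c1 = 0 := by rw [k3] at k1; simpa using k1
    have k5 : algebraMap F K c0 = 0 := by rw [k3, k4] at h; simpa using h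
    have inj := (algebraMap F K).injective
    exact ⟨inj (by rw [k5, map_zero]), inj (by rw [k4, map_zero]), inj (by rw [k3, map_zero])⟩

end Pool.Agent.EXC
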